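import Pool.Agent.H957.HE.Stm

/-!
Project SC (helper229), part AB (helper56): bounds of the sequences `a`, `b`.
-/

set_option autoImplicit false

namespace Pool.Agent.H957.HE.SC

open Pool.Agent.N229.SC

private theorem ab_rec (c κ : ℕ → ℝ) (hc : ∀ i, c (i + 2) = κ i * c (i + 1) - c i)
    (hκ0 : ∀ i, 0 ≤ κ i) (hκ : ∀ i : ℕ, κ i ≤ 164 / 100 + 2 / 10000 * (i + 1))
    (h0 : |c 0| ≤ 1) (h1 : |c 1| ≤ 3 / 2) :
    ∀ i, |c i| ≤ (3 / 2) ^ i * i.factorial ∧
      |c (i + 1)| ≤ (3 / 2) ^ (i + 1) * (i + 1).factorial := by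
  intro i
  induction i with
  | zero => exact ⟨by simpa using h0, by simpa using h1⟩
  | succ i ih =>
    refine ⟨ih.2, ?_⟩
    have hB : (0 : ℝ) < (3 / 2) ^ i * i.factorial := by positivity
    have e1 : (3 / 2 : ℝ) ^ (i + 1) * (i + 1).factorial =
        (3 / 2) * (i + 1) * ((3 / 2) ^ i * i.factorial) := by
      rw [Nat.factorial_succ, pow_succ]
      push_cast
      ring
    have e2 : (3 / 2 : ℝ) ^ (i + 1 + 1) * (i + 1 + 1).factorial =
        (9 / 4) * (i + 2) * (i + 1) * ((3 / 2) ^ i * i.factorial) := by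
      rw [Nat.factorial_succ, Nat.factorial_succ, pow_succ, pow_succ]
      push_cast
      ring
    rw [e1] at ih
    rw [e2, hc i]
    set B : ℝ := (3 / 2) ^ i * i.factorial with hBdef
    have hi : (0 : ℝ) ≤ i := Nat.cast_nonneg i
    have h2 : |κ i * c (i + 1) - c i| ≤ κ i * |c (i + 1)| + |c i| := by
      refine (abs_sub _ _).trans (le_of_eq ?_)
      rw [abs_mul, abs_of_nonneg (hκ0 i)]
    have h3 : κ i * |c (i + 1)| ≤ (164 / 100 + 2 / 10000 * (i + 1)) * ((3 / 2) * (i + 1) * B) :=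
      mul_le_mul (hκ i) ih.2 (abs_nonneg _) (by positivity)
    have h4 : (164 / 100 + 2 / 10000 * ((i : ℝ) + 1)) * ((3 / 2) * (i + 1)) + 1 ≤
        (9 / 4) * (i + 2) * (i + 1) := by nlinarith
    have h5 := mul_le_mul_of_nonneg_right h4 hB.le
    calc |κ i * c (i + 1) - c i| ≤ κ i * |c (i + 1)| + |c i| := h2
      _ ≤ (164 / 100 + 2 / 10000 * (i + 1)) * ((3 / 2) * (i + 1) * B) + B := add_le_add h3 ih.1
      _ = ((164 / 100 + 2 / 10000 * ((i : ℝ) + 1)) * ((3 / 2) * (i + 1)) + 1) * B := by ring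
      _ ≤ _ := h5

theorem proof_AB : S_AB := by
  intro P G
  have hρ0 : (0 : ℝ) < P.ρ := lt_of_lt_of_le (by norm_num) G.rho
  have hnu : P.nu = P.n / P.ρ := rfl
  have hinv : 1 / P.ρ ≤ 1 / 10000 := one_div_le_one_div_of_le (by norm_num) G.rho
  have hinv0 : 0 < 1 / P.ρ := by positivity
  obtain ⟨r, hr⟩ : ∃ r : ℝ, r = 1 / P.ρ := ⟨_, rfl⟩
  rw [← hr] at hinv hinv0
  have hra : ∀ i : ℕ, P.a (i + 2) = (2 * P.nu + 2 * (i + 1) * r) * P.a (i + 1) - P.a i := by
    intro i
    rw [G.ra i, hnu, hr]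
    ring
  have hrb : ∀ i : ℕ, P.b (i + 2) = (2 * (i + 2) * r) * P.b (i + 1) - P.b i := by
    intro i
    rw [G.rb i, hr]
    ring
  have n1 := G.nu1
  have n2 := G.nu2
  have a0 := G.a0
  have a0' := G.a0'
  have b0 := abs_le.mp G.b0
  have a1 := G.a1
  have b1 := G.b1
  have ha2 : P.a 2 = -(2 * P.nu + 2 * r) - P.a 0 := by
    have := hra 0
    simp only [zero_add, Nat.cast_zero] at this
    rw [this, a1]
    ring
  have hb2 : P.b 2 = -(4 * r) - P.b 0 := by
    have := hrb 0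
    simp only [zero_add, Nat.cast_zero] at this
    rw [this, b1]
    ring
  have ha3 : P.a 3 = (2 * P.nu + 4 * r) * P.a 2 + 1 := by
    have := hra 1
    simp only [Nat.cast_one, Nat.reduceAdd] at this
    rw [this, a1]
    ring
  have hb3 : P.b 3 = (6 * r) * P.b 2 + 1 := by
    have := hrb 1
    simp only [Nat.cast_one, Nat.reduceAdd] at this
    rw [this, b1]
    ring
  refine ⟨fun i => (ab_rec P.a (fun i => 2 * P.nu + 2 * (i + 1) * r) hra ?_ ?_ ?_ ?_ i).1,
    fun i => (ab_rec P.b (fun i => 2 * (i + 2) * r) hrb ?_ ?_ ?_ ?_ i).1, ?_, ?_, ?_, ?_, ?_⟩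
  · intro i
    have : 0 ≤ P.nu := by linarith
    positivity
  · intro i
    have hi : (0 : ℝ) ≤ i := Nat.cast_nonneg i
    have := mul_le_mul_of_nonneg_left hinv (by positivity : (0 : ℝ) ≤ 2 * ((i : ℝ) + 1))
    linarith
  · rw [abs_le]
    constructor <;> linarith
  · rw [a1]
    norm_num
  · intro i
    positivity
  · intro i
    have hi : (0 : ℝ) ≤ i := Nat.cast_nonneg i
    have := mul_le_mul_of_nonneg_left hinv (by positivity : (0 : ℝ) ≤ 2 * ((i : ℝ) + 2))
    linarith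
  · rw [abs_le]
    constructor <;> linarith [b0.1, b0.2]
  · rw [b1]
    norm_num
  · rw [ha2, abs_le]
    constructor <;> linarith
  · rw [hb2, abs_le]
    constructor <;> linarith [b0.1, b0.2]
  · rw [ha3, ha2, abs_le]
    constructor <;> nlinarith
  · have h2 : |P.b 2| ≤ 5 / 10000 := by
      rw [hb2, abs_le]
      constructor <;> linarith [b0.1, b0.2]
    have h3 := abs_le.mp h2
    rw [hb3, abs_le]
    constructor <;> nlinarith [h3.1, h3.2]
  · have h1 : (P.n : ℝ) = P.nu * P.ρ := by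
      rw [hnu]
      field_simp
    rw [h1]
    have := G.rho
    nlinarith

end Pool.Agent.H957.HE.SC
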