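import Pool.Agent.H957.HE.Stm

/-!
Project SC (helper229): existence of the solution by the intermediate value theorem (helper954).
-/

set_option autoImplicit false

open Set Filter Topology MeasureTheory

namespace Pool.Agent.H957.HE.SC

open Pool.Agent.N229.SC

/-- An element of the algebra which is antisymmetric, has no coefficients of index `≥ 2` and no
coefficient of index `1` is zero. -/
private theorem exi_zero (hA1 : S_A1) (hA2 : S_A2) (O : W) (h1 : conj O = -O) (h2 : Pi2 O = 0)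
    (h3 : cf O 1 = 0) : O = 0 := by
  obtain ⟨_, _, hneg, hzero, _, _, _, _, _, hext, _⟩ := hA1 wW
  obtain ⟨_, hconj, _, _, hPi, _⟩ := hA2
  have hm : ∀ j : ℤ, cf O (-j) = -cf O j := by
    intro j
    rw [← hconj.1 O j, h1, hneg]
  have hge : ∀ j : ℤ, 2 ≤ j → cf O j = 0 := by
    intro j hj
    have h4 := hPi.1 O j
    rw [if_pos hj, h2, hzero] at h4
    exact h4.symm
  have hpos : ∀ j : ℤ, 0 ≤ j → cf O j = 0 := by
    intro j hj
    rcases lt_or_ge j 2 with hj2 | hj2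
    · have : j = 0 ∨ j = 1 := by omega
      rcases this with rfl | rfl
      · have h4 := hm 0
        rw [neg_zero] at h4
        linarith
      · exact h3
    · exact hge j hj2
  refine hext O 0 fun j => ?_
  rw [hzero]
  rcases le_total 0 j with hj | hj
  · exact hpos j hj
  · have h4 := hm (-j)
    rw [neg_neg] at h4
    rw [h4, hpos (-j) (by omega), neg_zero]

theorem proof_EXI (hA1 : S_A1) (hA2 : S_A2) (hFIX : S_FIX) (hHG : S_HG) (hSGN : S_SGN) :
    S_EXI := by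
  intro P hG
  have hd2 : P.a 0 ≤ 31 / 10 ^ 10 := hG.a0'
  have hd0 : 0 < P.a 0 := hG.a0
  have hs0 : 0 < Real.sqrt (P.a 0) := Real.sqrt_pos.mpr hd0
  have hs1 : Real.sqrt (P.a 0) ≤ 6 / 10 ^ 5 := by
    rw [Real.sqrt_le_left (by norm_num)]
    refine hd2.trans ?_
    norm_num
  obtain ⟨x, hx, hcont⟩ := hFIX P hG
  have hle : Real.sqrt (P.a 0) ≤ 5 * Real.sqrt (P.a 0) := by linarith
  have hyp : ∀ X ∈ Icc (Real.sqrt (P.a 0)) (5 * Real.sqrt (P.a 0)),
      Hyp P X (x X).1 (x X).2.1 (x X).2.2 := fun X hX => ⟨hG, hx X hX, hX.1, hX.2⟩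
  have hl := (hSGN P _ _ _ _ (hyp _ (left_mem_Icc.mpr hle))).1 rfl
  have hr := (hSGN P _ _ _ _ (hyp _ (right_mem_Icc.mpr hle))).2 rfl
  obtain ⟨X, hX, hX0⟩ := intermediate_value_Icc' hle hcont
    (show (0 : ℝ) ∈ Icc _ _ from ⟨hr.le, hl.le⟩)
  have hsol := hx X hX
  have hXpos : 0 < X := lt_of_lt_of_le hs0 hX.1
  refine ⟨X, (x X).1, (x X).2.1, (x X).2.2, hXpos, ?_, ?_, hsol, ?_, ?_⟩
  · refine hX.2.trans ?_
    linarith
  · exact hX.2
  · refine exi_zero hA1 hA2 _ ?_ hsol.eO hX0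
    have hcc := hA2.2.1.2.2.2.2
    unfold OO
    rw [map_sub, hcc, neg_sub]
  · have h1 := (hHG P X _ _ _ (hyp X hX) 2 5 5 (by norm_num) le_rfl (by norm_num) le_rfl
      (by norm_num) le_rfl hsol.nh hsol.nv hsol.ny).1
    refine h1.trans ?_
    have : 0 < X ^ 2 := pow_pos hXpos 2
    nlinarith

end Pool.Agent.H957.HE.SC
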