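import Pool.Agent.H957.HE.Stm

/-!
Project SC (helper229), part FN4 (helper368): the boundary condition.
-/

set_option autoImplicit false

open Set Filter Topology

namespace Pool.Agent.H957.HE.SC

open Pool.Agent.N229.SC

private theorem fn4_der (hA1 : S_A1) (hA2 : S_A2) {P : Par} (hn : (0 : ℝ) < P.n) {h v : W}
    {y : ℕ → A} (hb : ∀ j < 1, cf (beta P h) j = 0) (hv : ∀ j < 2, cf v j = 0)
    (hy : ∀ i, ∀ j < 2, cf (y i) j = 0) (eY : ∀ i, y i = RH P h v y i) (i : ℕ) :
    der (qq P h v y i) = (1 + beta P h) * inc (vv P h v y i) := by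
  obtain ⟨cadd, csub, -, -, csmul, cmon, -, -, -, cext, -, cprod, -⟩ := hA1 wA
  obtain ⟨⟨inccf, -, -, -, -⟩, -, -, ⟨dercf, -, -⟩, -, ⟨rescf, -, -, -⟩⟩ := hA2
  cases i with
  | zero =>
    have h0 : ∀ j < 0, cf (1 + beta P h) j = 0 := by
      intro j hj
      rw [cadd, one_def, cmon, if_neg (by omega), hb j (by omega), add_zero]
    have h1 : ∀ j < 2, cf (inc v) j = 0 := by
      intro j hj
      rw [inccf, hv j hj]
    have h2 := (cprod 0 2 _ _ h0 h1).1
    refine cext _ _ fun j => ?_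
    rw [dercf]
    show (j : ℝ) * cf (res P.n 0 ((1 + beta P h) * inc v)) j = cf ((1 + beta P h) * inc v) j
    rw [rescf]
    split_ifs with hj
    · have : (j : ℝ) ≠ 0 := by
        have : (2 : ℝ) ≤ j := by exact_mod_cast hj
        linarith
      simp only [Nat.cast_zero, zero_div, add_zero]
      field_simp
    · rw [mul_zero, h2 j (by omega)]
  | succ i =>
    set s : ℝ := ((i : ℝ) + 1) / P.n with hs
    have hs0 : 0 ≤ s := by positivity
    have e1 : der (qq P h v y (i + 1)) = y i - s • inc (qq P h v y (i + 1)) := by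
      refine cext _ _ fun j => ?_
      rw [dercf, csub, csmul, inccf]
      show (j : ℝ) * cf (res P.n (i + 1) (y i)) j = cf (y i) j - s * cf (res P.n (i + 1) (y i)) j
      rw [rescf]
      split_ifs with hj
      · have h2 : (2 : ℝ) ≤ j := by exact_mod_cast hj
        have h3 : (j : ℝ) + s ≠ 0 := by linarith
        have h4 : ((i + 1 : ℕ) : ℝ) / P.n = s := by rw [hs]; push_cast; rfl
        rw [h4]
        field_simp
        ring
      · rw [hy i j (by omega)]
        ring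
    have e2 : inc (vv P h v y (i + 1)) = (1 / (2 * P.nu)) • inc (qq P h v y i + qq P h v y (i + 2)) -
        s • inc (qq P h v y (i + 1)) := by
      show inc ((1 / (2 * P.nu)) • (qq P h v y i + qq P h v y (i + 2)) -
        s • qq P h v y (i + 1)) = _
      rw [map_sub, map_smul, map_smul]
    have e3 : y i = (1 / (2 * P.nu)) • ((1 + beta P h) * inc (qq P h v y i + qq P h v y (i + 2))) -
      s • (beta P h * inc (qq P h v y (i + 1))) := eY i
    rw [e1, e2, e3, mul_sub, mul_smul_comm, mul_smul_comm, add_mul 1 (beta P h) (inc (qq P h v y (i + 1))),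
      one_mul, smul_add]
    abel

private theorem fn4_TT (hA3 : S_A3) {t : ℂ} (L : W →L[ℝ] ℂ) (hL : ∀ a, L a = ev a t)
    (hsm : ∀ (r : ℝ) (a : W), ev (r • a) t = r * ev a t)
    (hm : ∀ a b : W, ev (a * b) t = ev a t * ev b t) (h1 : ev (1 : W) t = 1)
    {ξ : W} (hξ : ‖ξ‖ ≤ 1 / 30) {e : ℝ} (he : (e : ℂ) = -ev ξ t) {c : ℕ → W} {M : ℝ}
    (hc : ∀ i, ‖c i‖ ≤ M * (3 ^ i * i.factorial)) :
    HasSum (fun i : ℕ => ((e : ℂ) ^ i / (i.factorial : ℂ)) * ev (c i) t) (ev (TT ξ c) t) := by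
  obtain ⟨-, hT, -, -⟩ := hA3
  have h2 := (hT ξ c M hc hξ).1.hasSum
  have h3 := L.hasSum h2
  have hp : ∀ i : ℕ, ev (ξ ^ i) t = (ev ξ t) ^ i := by
    intro i
    induction i with
    | zero => rw [pow_zero, pow_zero, h1]
    | succ i ih => rw [pow_succ, hm, ih, pow_succ]
  have h4 : L (∑' i : ℕ, ((-1) ^ i * (i.factorial : ℝ)⁻¹) • (ξ ^ i * c i)) = ev (TT ξ c) t := hL _
  rw [h4] at h3
  refine h3.congr_fun fun i => ?_
  rw [hL, hsm, hm, hp, he, neg_pow]
  push_cast
  ring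

theorem proof_FN4 (hA1 : S_A1) (hA2 : S_A2) (hA3 : S_A3) (hAB : S_AB) (hB1 : S_B1) (hB2 : S_B2)
    (hEH : S_EH) (hEV : S_EV) : S_FN4 := by
  intro P X h v y hF z hz
  have hG := hF.good
  have hρ : 0 < P.ρ := by linarith [hG.rho]
  obtain ⟨-, -, -, -, -, -, hn8⟩ := hAB P hG
  have hn : (0 : ℝ) < P.n := by linarith
  have hn0 : P.n ≠ 0 := by
    intro h0
    rw [h0] at hn
    simp at hn
  have hz0 : z ≠ 0 := by
    rintro rfl
    simp at hz
  obtain ⟨t, ht⟩ : ∃ t : ℂ, t = z ^ P.n := ⟨_, rfl⟩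
  have ht1 : ‖t‖ = 1 := by rw [ht, norm_pow, hz, one_pow]
  have hsol := hF.sol
  have hX := hF.X_pos
  have hX2 := hF.X_le
  have hh : ‖h‖ ≤ 1 / 1000 := by
    have := hsol.nh
    norm_num at hX2 ⊢
    linarith
  have hDom : Dom X h v y := ⟨hsol.hc, hsol.hv, hsol.hy, hsol.nh, hsol.nv, hsol.ny⟩
  obtain ⟨⟨-, -, -, -, -, hxi⟩, hcj, ⟨hPhi, -, hbeta, htau, -⟩, -⟩ := hB1 P hG h hh
  obtain ⟨hcxi, hcYY⟩ := hcj hsol.hc
  obtain ⟨hqq, hvv, hVh, hQh, -⟩ := hB2 P hG X h v y hX hX2 hDom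
  obtain ⟨-, evadd, evsmul, evmul, evmon, evevh, ⟨L, hL⟩, evconj, evinc, evex, evreal⟩ :=
    hEV wW t ht1
  obtain ⟨-, evaddA, -, evmulA, evmonA, evevhA, -, -, -, -, -⟩ := hEV wA t ht1
  obtain ⟨dif, -, -, evhsmul, -, -, evhder, -⟩ := hEH wW wA_le_wW
  have ev1 : ev (1 : W) t = 1 := by rw [one_def, evmon, zpow_zero]
  have ev1A : ev (1 : A) t = 1 := by rw [one_def, evmonA, zpow_zero]
  have evsub : ∀ a b : W, ev (a - b) t = ev a t - ev b t := by
    intro a b
    rw [← hL, ← hL, ← hL, map_sub]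
  have hxi30 : ‖xi P h‖ ≤ 1 / 30 := by
    have h1 : ‖xi P h‖ ≤ ‖xi P h - h‖ + ‖h‖ := by
      have := norm_add_le (xi P h - h) h
      rwa [sub_add_cancel] at this
    nlinarith [norm_nonneg h]
  -- the boundary value of `f`
  set f := fF P h with hf
  have hfz : f z = P.ρ * z * Complex.exp (evh (Phi P h) t / P.n) := by rw [hf, fF, ht]
  have hνn : P.nu / P.n = 1 / P.ρ := by
    unfold Par.nu
    field_simp
  obtain ⟨hre, him⟩ := evreal h hsol.hc
  have hPhit : evh (Phi P h) t = P.nu * evh (hol h) t := by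
    unfold Phi
    exact evhsmul _ _ _
  have hY : ev (YY P h) t = ((‖f z‖ ^ 2 / P.ρ ^ 2 : ℝ) : ℂ) := by
    have e1 : ev (YY P h) t = Complex.exp ((((2 / P.ρ) * (ev h t).re : ℝ)) : ℂ) := by
      unfold YY
      rw [evex, evsmul]
      congr 1
      rw [Complex.ofReal_mul]
      congr 1
      exact Complex.ext rfl (by rw [him]; simp)
    rw [e1, hfz, norm_mul, norm_mul, hz, mul_one, Complex.norm_exp, Complex.norm_real,
      Real.norm_of_nonneg hρ.le, ← Complex.ofReal_exp]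
    congr 1
    have e2 : (evh (Phi P h) t / P.n).re = (1 / P.ρ) * (ev h t).re := by
      rw [hPhit, ← hre, Complex.div_natCast_re, Complex.re_ofReal_mul, ← hνn]
      ring
    rw [e2, mul_pow, ← Real.exp_nat_mul]
    field_simp
    congr 1
    push_cast
    ring
  set Y : ℝ := ‖f z‖ ^ 2 / P.ρ ^ 2 with hYd
  have heF : ((eF P.ρ f z : ℝ) : ℂ) = -ev (xi P h) t := by
    unfold xi
    rw [evsmul, evsub, ev1, hY]
    unfold eF
    rw [hYd]
    push_cast
    have : (P.ρ : ℂ) ≠ 0 := by exact_mod_cast hρ.ne'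
    field_simp
    ring
  -- the series
  have hTV := fn4_TT hA3 L hL evsmul evmul ev1 hxi30 heF hVh
  have hTQ := fn4_TT hA3 L hL evsmul evmul ev1 hxi30 heF hQh
  set TV : ℂ := ev (TT (xi P h) (Vh P X h v y)) t with hTVd
  set TQ : ℂ := ev (TT (xi P h) (Qh P X h v y)) t with hTQd
  -- the equations
  have hO : TV = (starRingEnd ℂ) TV := by
    have h1 := hF.eO
    unfold OO at h1
    have h2 : ev (TT (xi P h) (Vh P X h v y) - conj (TT (xi P h) (Vh P X h v y))) t = 0 := by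
      rw [h1, ← hL, map_zero]
    rw [evsub, evconj] at h2
    exact sub_eq_zero.1 h2
  have hE : (P.nu : ℂ) * (TV + (starRingEnd ℂ) TV) = Y * (TQ + (starRingEnd ℂ) TQ) := by
    have h1 := hsol.eE
    unfold EE at h1
    have h2 : ev ((P.nu / 2) • (TT (xi P h) (Vh P X h v y) + conj (TT (xi P h) (Vh P X h v y))) -
      (1 / 2 : ℝ) • (YY P h * (TT (xi P h) (Qh P X h v y) + conj (TT (xi P h) (Qh P X h v y))))) t
        = 0 := by
      rw [h1, ← hL, map_zero]
    rw [evsub, evsmul, evsmul, evmul, evadd, evadd, evconj, evconj, hY] at h2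
    push_cast at h2
    linear_combination 2 * h2
  have hfin : (P.n : ℂ) * TV = P.ρ * Y * (TQ.re : ℂ) := by
    have h1 : TQ + (starRingEnd ℂ) TQ = 2 * (TQ.re : ℂ) := by
      rw [Complex.add_conj]
      push_cast
      rfl
    rw [← hO, h1] at hE
    have h2 : (P.nu : ℂ) * P.ρ = P.n := by
      have : P.nu * P.ρ = P.n := by
        unfold Par.nu
        field_simp
      exact_mod_cast this
    rw [← h2]
    linear_combination (P.ρ / 2 : ℂ) * hE
  -- derivatives
  set B : ℂ := 1 + ev (beta P h) t with hB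
  have htR : t ∈ Metric.ball (0 : ℂ) Rad := by
    rw [mem_ball_zero_iff, ht1]
    norm_num [Rad]
  have htR' : ‖t‖ < Rad := by
    rw [ht1]
    norm_num [Rad]
  have hevhd : ∀ a : W, HasDerivAt (fun w : ℂ => evh a (w ^ P.n))
      (deriv (evh a) t * (P.n * z ^ (P.n - 1))) z := by
    intro a
    have h1 : HasDerivAt (evh a) (deriv (evh a) t) (z ^ P.n) := by
      rw [← ht]
      exact ((dif a).differentiableAt (Metric.isOpen_ball.mem_nhds htR)).hasDerivAt
    exact h1.comp z (hasDerivAt_pow P.n z)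
  have hzn : z * z ^ (P.n - 1) = t := by
    rw [ht, ← pow_succ', Nat.sub_add_cancel (Nat.pos_of_ne_zero hn0)]
  have hbt : t * deriv (evh (Phi P h)) t = ev (beta P h) t := by
    rw [← evhder (Phi P h) t htR', evevhA (beta P h) fun j hj => hbeta j (by omega)]
    rfl
  have hnC : (P.n : ℂ) ≠ 0 := by exact_mod_cast hn0
  have hρC : (P.ρ : ℂ) ≠ 0 := by exact_mod_cast hρ.ne'
  have hdf : HasDerivAt f (P.ρ * Complex.exp (evh (Phi P h) t / P.n) * B) z := by
    have h1 := ((hevhd (Phi P h)).div_const (P.n : ℂ)).cexp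
    have h2 := ((hasDerivAt_id z).const_mul (P.ρ : ℂ)).mul h1
    have h3 : (f : ℂ → ℂ) = fun w => (P.ρ : ℂ) * id w * Complex.exp (evh (Phi P h) (w ^ P.n) / P.n) := by
      funext w
      rw [hf, fF]
      rfl
    rw [h3]
    refine h2.congr_deriv ?_
    simp only [id]
    rw [← ht, hB, ← hbt, ← hzn]
    field_simp
  have hzf : z * deriv f z = f z * B := by
    rw [hdf.deriv, hfz]
    ring
  have hfn : (f z / P.ρ) ^ P.n = ev (tau P h) t := by
    unfold tau
    rw [evmul, evmon, evex, zpow_one, evevh (Phi P h) hPhi, hfz]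
    have e1 : (P.ρ : ℂ) * z * Complex.exp (evh (Phi P h) t / P.n) / P.ρ =
        z * Complex.exp (evh (Phi P h) t / P.n) := by
      field_simp
    rw [e1, mul_pow, ← Complex.exp_nat_mul, ← ht]
    congr 2
    field_simp
  have hdn : HasDerivAt (fun w => (f w / P.ρ) ^ P.n)
      (P.n * (f z / P.ρ) ^ (P.n - 1) * (deriv f z / P.ρ)) z := by
    have h1 := (hdf.differentiableAt.hasDerivAt.div_const (P.ρ : ℂ)).pow P.n
    exact h1
  have hzdn : z * (P.n * (f z / P.ρ) ^ (P.n - 1) * (deriv f z / P.ρ)) = P.n * B * ev (tau P h) t := by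
    have e1 : (f z / P.ρ) * (f z / P.ρ) ^ (P.n - 1) = ev (tau P h) t := by
      rw [← hfn, ← pow_succ', Nat.sub_add_cancel (Nat.pos_of_ne_zero hn0)]
    rw [← e1]
    linear_combination (P.n * (f z / P.ρ) ^ (P.n - 1) / P.ρ : ℂ) * hzf
  have hq : ∀ i, z * (deriv (evh (qq P h v y i)) t * (P.n * z ^ (P.n - 1))) =
      P.n * B * ev (vv P h v y i) t := by
    intro i
    have h1 := evhder (qq P h v y i) t htR'
    have h2 := fn4_der hA1 hA2 hn hbeta hsol.hv hsol.hy hsol.eY i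
    obtain ⟨-, -, -, ⟨dercf, -, -⟩, -, -⟩ := hA2
    have h3 : evh (der (qq P h v y i)) t = ev (der (qq P h v y i)) t := by
      refine (evevhA _ fun j hj => ?_).symm
      rw [dercf, hqq i j (by omega), mul_zero]
    rw [h3, h2, evmulA, evaddA, ev1A, evinc] at h1
    rw [hB, ← hzn] at *
    linear_combination (-(P.n : ℂ)) * h1
  have hdQ : ∀ (i : ℕ) (k : ℂ), (∀ w, QF P X h v y i w = k + ((X * P.a i : ℝ) : ℂ) * (f w / P.ρ) ^ P.n +
      evh (qq P h v y i) (w ^ P.n)) → z * deriv (QF P X h v y i) z = P.n * B * ev (Vh P X h v y i) t := by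
    intro i k hk
    have h1 : QF P X h v y i = fun w => k + ((X * P.a i : ℝ) : ℂ) * (f w / P.ρ) ^ P.n +
      evh (qq P h v y i) (w ^ P.n) := funext hk
    have h2 : HasDerivAt (QF P X h v y i) (((X * P.a i : ℝ) : ℂ) *
        (P.n * (f z / P.ρ) ^ (P.n - 1) * (deriv f z / P.ρ)) +
        deriv (evh (qq P h v y i)) t * (P.n * z ^ (P.n - 1))) z := by
      rw [h1]
      exact ((hdn.const_mul _).const_add k).add (hevhd _)
    rw [h2.deriv]
    unfold Vh
    rw [evadd, evsmul]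
    linear_combination ((X * P.a i : ℝ) : ℂ) * hzdn + hq i
  have hdQ' : ∀ i : ℕ, z * deriv (QF P X h v y i) z = P.n * B * ev (Vh P X h v y i) t := by
    intro i
    cases i with
    | zero => exact hdQ 0 _ fun w => rfl
    | succ i => exact hdQ (i + 1) _ fun w => rfl
  have hQ' : ∀ i : ℕ, QF P X h v y (i + 1) z = ev (Qh P X h v y i) t := by
    intro i
    unfold Qh
    rw [evadd, evadd, evsmul, evsmul, ev1, mul_one, ← hfn,
      evevh (qq P h v y (i + 1)) fun j hj => hqq (i + 1) j (by omega), ht]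
    rfl
  have hPQ : PP (fun i => QF P X h v y (i + 1)) (eF P.ρ f z) z = TQ := by
    unfold PP
    simp only [hQ']
    exact hTQ.tsum_eq
  have hPV : z * PP (fun i => deriv (QF P X h v y i)) (eF P.ρ f z) z = P.n * B * TV := by
    unfold PP
    rw [← tsum_mul_left, ← hTV.tsum_eq, ← tsum_mul_left]
    refine tsum_congr fun i => ?_
    linear_combination (((eF P.ρ f z : ℝ) : ℂ) ^ i / (i.factorial : ℂ)) * hdQ' i
  have hzS : z * SS P.ρ f (QF P X h v y) z = 0 := by
    unfold SS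
    rw [hPQ]
    have hff : f z * (starRingEnd ℂ) (f z) = (P.ρ : ℂ) ^ 2 * Y := by
      rw [Complex.mul_conj, Complex.normSq_eq_norm_sq, hYd]
      push_cast
      field_simp
    have e1 : z * (deriv f z * (starRingEnd ℂ) (f z) / P.ρ * (TQ.re : ℂ)) =
        B * (P.ρ * Y * (TQ.re : ℂ)) := by
      calc z * (deriv f z * (starRingEnd ℂ) (f z) / P.ρ * (TQ.re : ℂ))
          = (z * deriv f z) * (starRingEnd ℂ) (f z) / P.ρ * (TQ.re : ℂ) := by ring
        _ = B * (f z * (starRingEnd ℂ) (f z)) / P.ρ * (TQ.re : ℂ) := by rw [hzf]; ring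
        _ = B * (P.ρ * Y * (TQ.re : ℂ)) := by rw [hff]; field_simp
    rw [mul_sub, hPV, e1, ← hfin]
    ring
  exact (mul_eq_zero.1 hzS).resolve_left hz0

end Pool.Agent.H957.HE.SC
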