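import Pool.Agent.H957.HE.Stm

/-!
Project SC (helper229), problem MP_83fd13_an: part HG, the first order of `h` (helper383).
-/

set_option autoImplicit false

open Set Filter Topology

namespace Pool.Agent.H957.HE.SC

open Pool.Agent.N229.SC

/-- twice the real part -/
private noncomputable def hgE (z : W) : W := z + conj z

private theorem hgE_add (a b : W) : hgE (a + b) = hgE a + hgE b := by
  unfold hgE
  rw [map_add]
  abel

private theorem hgE_sub (a b : W) : hgE (a - b) = hgE a - hgE b := by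
  unfold hgE
  rw [map_sub]
  abel

private theorem hgE_smul (r : ℝ) (a : W) : hgE (r • a) = r • hgE a := by
  unfold hgE
  rw [map_smul, smul_add]

private theorem hgE_mul (hA2 : S_A2) {x : W} (hx : conj x = x) (a : W) :
    hgE (x * a) = x * hgE a := by
  unfold hgE
  rw [hA2.2.1.2.1, hx, mul_add]

private theorem hgE_one (hA2 : S_A2) : hgE 1 = (2 : ℝ) • (1 : W) := by
  unfold hgE
  rw [hA2.2.1.2.2.1, two_smul]

private theorem hgE_norm (hA2 : S_A2) (a : W) : ‖hgE a‖ ≤ 2 * ‖a‖ := by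
  unfold hgE
  have h1 := norm_add_le a (conj a)
  rw [hA2.2.1.2.2.2.1] at h1
  linarith

private theorem hgE_cc : (2 : ℝ) • cc = hgE (mon wW 1) := by
  unfold hgE cc
  have h1 : conj (mon wW 1) = mon wW (-1) := lft_mon _ _ _ 1
  rw [h1, smul_smul]
  norm_num

/-- the algebraic identity -/
private theorem hg_id (hA2 : S_A2) {ν X a2 b0 : ℝ} {x t Y S T q1 q2 Q3 R : W} (hx : conj x = x)
    (hE : (ν / 2) • (T + conj T) - (1 / 2 : ℝ) • (Y * (S + conj S)) = 0)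
    (hS : S = (b0 • (1 : W) + (-X) • t + q1) - x * ((-1 : ℝ) • (1 : W) + (X * a2) • t + q2) +
      (1 / 2 : ℝ) • (x ^ 2 * Q3) + R) :
    (2 : ℝ) • (x - X • cc) = X • hgE (t - mon wW 1) + ν • hgE T - (Y - 1) * hgE S -
      (2 * b0) • (1 : W) - hgE q1 + x * ((X * a2) • hgE t + hgE q2) -
      (1 / 2 : ℝ) • (x ^ 2 * hgE Q3) - hgE R := by
  have hx2 : conj (x ^ 2) = x ^ 2 := by
    rw [sq, hA2.2.1.2.1, hx]
  have h1 : Y * hgE S = ν • hgE T := by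
    have h2 : (1 / 2 : ℝ) • (Y * hgE S) = (ν / 2) • hgE T := by
      unfold hgE
      exact (sub_eq_zero.1 hE).symm
    have h3 : (2 : ℝ) • ((1 / 2 : ℝ) • (Y * hgE S)) = (2 : ℝ) • ((ν / 2) • hgE T) := by rw [h2]
    rw [smul_smul, smul_smul] at h3
    have h4 : (2 : ℝ) * (1 / 2) = 1 := by norm_num
    have h5 : (2 : ℝ) * (ν / 2) = ν := by ring
    rw [h4, h5, one_smul] at h3
    exact h3
  have h6 : (Y - 1) * hgE S = ν • hgE T - hgE S := by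
    rw [sub_mul, one_mul, h1]
  have h7 : hgE S = ((2 * b0) • (1 : W) + (-X) • hgE t + hgE q1) - x * ((-2 : ℝ) • (1 : W)) -
      x * ((X * a2) • hgE t + hgE q2) + (1 / 2 : ℝ) • (x ^ 2 * hgE Q3) + hgE R := by
    have h8 : x * ((-1 : ℝ) • (1 : W) + (X * a2) • t + q2) =
        x * ((-1 : ℝ) • (1 : W)) + x * ((X * a2) • t + q2) := by ring
    rw [hS, h8, hgE_add, hgE_add, hgE_sub, hgE_add, hgE_add, hgE_add, hgE_smul, hgE_smul, hgE_smul,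
      hgE_mul hA2 hx, hgE_mul hA2 hx, hgE_mul hA2 hx2, hgE_add, hgE_smul, hgE_smul, hgE_one hA2,
      smul_smul, smul_smul]
    have h9 : b0 * 2 = 2 * b0 := by ring
    have h10 : (-1 : ℝ) * 2 = -2 := by norm_num
    rw [h9, h10]
    abel
  have h11 : x * ((-2 : ℝ) • (1 : W)) = (-2 : ℝ) • x := by
    rw [mul_smul_comm, mul_one]
  rw [h11] at h7
  rw [h6, hgE_sub, ← hgE_cc, h7]
  module

/-- the norm estimate -/
private theorem hg_norm (hA2 : S_A2) {ν X a2 b0 : ℝ} {x t Y S T q1 q2 Q3 R : W} (hx : conj x = x)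
    (hE : (ν / 2) • (T + conj T) - (1 / 2 : ℝ) • (Y * (S + conj S)) = 0)
    (hS : S = (b0 • (1 : W) + (-X) • t + q1) - x * ((-1 : ℝ) • (1 : W) + (X * a2) • t + q2) +
      (1 / 2 : ℝ) • (x ^ 2 * Q3) + R) (hν : 0 ≤ ν) (hX : 0 ≤ X) :
    ‖x - X • cc‖ ≤ X * ‖t - mon wW 1‖ + ν * ‖T‖ + ‖Y - 1‖ * ‖S‖ + |b0| + ‖q1‖ +
      ‖x‖ * (X * |a2| * ‖t‖ + ‖q2‖) + 1 / 2 * (‖x‖ ^ 2 * ‖Q3‖) + ‖R‖ := by
  have h0 := hg_id hA2 hx hE hS
  have n0 : ‖(2 : ℝ) • (x - X • cc)‖ = 2 * ‖x - X • cc‖ := by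
    rw [norm_smul, Real.norm_eq_abs, abs_of_pos (by norm_num : (0 : ℝ) < 2)]
  have n1 : ‖X • hgE (t - mon wW 1)‖ ≤ X * (2 * ‖t - mon wW 1‖) := by
    rw [norm_smul, Real.norm_eq_abs, abs_of_nonneg hX]
    exact mul_le_mul_of_nonneg_left (hgE_norm hA2 _) hX
  have n2 : ‖ν • hgE T‖ ≤ ν * (2 * ‖T‖) := by
    rw [norm_smul, Real.norm_eq_abs, abs_of_nonneg hν]
    exact mul_le_mul_of_nonneg_left (hgE_norm hA2 _) hν
  have n3 : ‖(Y - 1) * hgE S‖ ≤ ‖Y - 1‖ * (2 * ‖S‖) :=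
    (norm_mul_le _ _).trans (mul_le_mul_of_nonneg_left (hgE_norm hA2 _) (norm_nonneg _))
  have n4 : ‖(2 * b0) • (1 : W)‖ = 2 * |b0| := by
    rw [norm_smul, Real.norm_eq_abs, abs_mul, abs_of_pos (by norm_num : (0 : ℝ) < 2), norm_one,
      mul_one]
  have n5 := hgE_norm hA2 q1
  have n6 : ‖x * ((X * a2) • hgE t + hgE q2)‖ ≤ ‖x‖ * (2 * (X * |a2| * ‖t‖ + ‖q2‖)) := by
    refine (norm_mul_le _ _).trans (mul_le_mul_of_nonneg_left ?_ (norm_nonneg _))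
    have m1 : ‖(X * a2) • hgE t‖ ≤ X * |a2| * (2 * ‖t‖) := by
      rw [norm_smul, Real.norm_eq_abs, abs_mul, abs_of_nonneg hX]
      exact mul_le_mul_of_nonneg_left (hgE_norm hA2 _) (by positivity)
    have m2 := hgE_norm hA2 q2
    have m3 := norm_add_le ((X * a2) • hgE t) (hgE q2)
    linarith
  have n7 : ‖(1 / 2 : ℝ) • (x ^ 2 * hgE Q3)‖ ≤ 1 / 2 * (‖x‖ ^ 2 * (2 * ‖Q3‖)) := by
    rw [norm_smul, Real.norm_eq_abs, abs_of_pos (by norm_num : (0 : ℝ) < 1 / 2)]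
    refine mul_le_mul_of_nonneg_left ?_ (by norm_num)
    refine (norm_mul_le _ _).trans ?_
    exact mul_le_mul (norm_pow_le x 2) (hgE_norm hA2 _) (norm_nonneg _) (by positivity)
  have n8 := hgE_norm hA2 R
  rw [h0] at n0
  have k1 := norm_sub_le (X • hgE (t - mon wW 1) + ν • hgE T - (Y - 1) * hgE S -
      (2 * b0) • (1 : W) - hgE q1 + x * ((X * a2) • hgE t + hgE q2) -
      (1 / 2 : ℝ) • (x ^ 2 * hgE Q3)) (hgE R)
  have k2 := norm_sub_le (X • hgE (t - mon wW 1) + ν • hgE T - (Y - 1) * hgE S -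
      (2 * b0) • (1 : W) - hgE q1 + x * ((X * a2) • hgE t + hgE q2))
      ((1 / 2 : ℝ) • (x ^ 2 * hgE Q3))
  have k3 := norm_add_le (X • hgE (t - mon wW 1) + ν • hgE T - (Y - 1) * hgE S -
      (2 * b0) • (1 : W) - hgE q1) (x * ((X * a2) • hgE t + hgE q2))
  have k4 := norm_sub_le (X • hgE (t - mon wW 1) + ν • hgE T - (Y - 1) * hgE S -
      (2 * b0) • (1 : W)) (hgE q1)
  have k5 := norm_sub_le (X • hgE (t - mon wW 1) + ν • hgE T - (Y - 1) * hgE S)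
      ((2 * b0) • (1 : W))
  have k6 := norm_sub_le (X • hgE (t - mon wW 1) + ν • hgE T) ((Y - 1) * hgE S)
  have k7 := norm_add_le (X • hgE (t - mon wW 1)) (ν • hgE T)
  linarith

/-- the numerical inequality -/
private theorem hg_num {X H V M a0 a2 b0 ν η nt ntm nT nY nS nq1 nq2 nQ3 nR : ℝ} (hX : 0 < X)
    (hX2 : X ≤ 28 / 10 ^ 5) (hH : 0 ≤ H) (hH2 : H ≤ 2) (hV : 0 ≤ V) (hV5 : V ≤ 5) (hM : 0 ≤ M)
    (hM5 : M ≤ 5) (ha0X : a0 ≤ X ^ 2)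
    (hb0 : |b0| ≤ 1 / 10 ^ 6 * X ^ 2) (hν : 0 ≤ ν) (hν2 : ν ≤ 41 / 50) (ha2 : |a2| ≤ 16403 / 10000)
    (hη : 0 ≤ η) (hη2 : η ≤ 10001 / 10000 * (H * X)) (hnt : nt ≤ 1128 / 1000) (hnt0 : 0 ≤ nt)
    (hntm : ntm ≤ 93 / 100 * (H * X))
    (hnT : nT ≤ (X * a0 * nt + V * X ^ 2) + η * (X * nt + (8 / 25 * V + 2 / 5 * M) * X ^ 2) +
      6 * X * η ^ 2)
    (hnY : nY ≤ 201 / 10 ^ 6 * (H * X)) (hnS0 : 0 ≤ nS)
    (hnS : nS ≤ (|b0| + X * nt + nq1) + 2 * η) (hnq1 : nq1 ≤ 5 / 8 * M * X ^ 2)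
    (hnq2 : nq2 ≤ 5 / 8 * M * X ^ 2) (hnq20 : 0 ≤ nq2)
    (hnQ3 : nQ3 ≤ 5 / 10000 + X * (17 / 10) * nt + 5 / 8 * M * X ^ 2)
    (hnR : nR ≤ 18 * η ^ 3) :
    X * ntm + ν * nT + nY * nS + |b0| + nq1 + η * (X * |a2| * nt + nq2) +
      1 / 2 * (η ^ 2 * nQ3) + nR ≤
      (379 / 100 * H + 83 / 100 * V + 63 / 100 * M + 1 / 20) * X ^ 2 := by
  have hXX : 0 < X ^ 2 := by positivity
  have hu : 0 ≤ H * X ^ 2 := by positivity
  have hXsm : X ^ 2 ≤ 28 / 10 ^ 5 * X := by nlinarith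
  have e1 : X * ntm ≤ 93 / 100 * (H * X ^ 2) := by nlinarith
  have eX : η * X ≤ 10001 / 10000 * (H * X ^ 2) := by nlinarith
  have eXX : η * X ^ 2 ≤ 29 / 10 ^ 5 * (H * X ^ 2) := by
    have h1 : η * X ^ 2 = (η * X) * X := by ring
    rw [h1]
    have h2 : (η * X) * X ≤ (10001 / 10000 * (H * X ^ 2)) * X := by nlinarith
    nlinarith
  have eη : η ≤ 57 / 10 ^ 5 := by nlinarith
  have e2 : η ^ 2 ≤ 20005 / 10000 * (H * X ^ 2) := by
    have h1 : η ^ 2 ≤ (10001 / 10000 * (H * X)) ^ 2 := by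
      exact pow_le_pow_left₀ hη hη2 2
    have h2 : (10001 / 10000 * (H * X)) ^ 2 = (10001 / 10000) ^ 2 * H * (H * X ^ 2) := by ring
    rw [h2] at h1
    have h3 : (10001 / 10000) ^ 2 * H * (H * X ^ 2) ≤ (10001 / 10000) ^ 2 * 2 * (H * X ^ 2) := by
      have : (10001 / 10000 : ℝ) ^ 2 * H ≤ (10001 / 10000) ^ 2 * 2 := by nlinarith
      exact mul_le_mul_of_nonneg_right this hu
    nlinarith
  have e2X : X * η ^ 2 ≤ 57 / 10 ^ 5 * (H * X ^ 2) := by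
    have h1 : X * η ^ 2 ≤ X * (20005 / 10000 * (H * X ^ 2)) := mul_le_mul_of_nonneg_left e2 hX.le
    nlinarith
  have e3 : η ^ 3 ≤ 115 / 10 ^ 5 * (H * X ^ 2) := by
    have h1 : η ^ 3 = η * η ^ 2 := by ring
    rw [h1]
    have h2 : η * η ^ 2 ≤ 57 / 10 ^ 5 * η ^ 2 := mul_le_mul_of_nonneg_right eη (by positivity)
    linarith
  have ent : η * X * nt ≤ 11282 / 10000 * (H * X ^ 2) := by
    have h1 : η * X * nt ≤ η * X * (1128 / 1000) :=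
      mul_le_mul_of_nonneg_left hnt (by positivity)
    linarith
  -- T
  have eT1 : X * a0 * nt ≤ 32 / 10 ^ 5 * X ^ 2 := by
    have h1 : X * a0 ≤ 28 / 10 ^ 5 * X ^ 2 := by nlinarith
    have h2 : X * a0 * nt ≤ (28 / 10 ^ 5 * X ^ 2) * (1128 / 1000) :=
      mul_le_mul h1 hnt hnt0 (by positivity)
    linarith
  have eT2 : η * ((8 / 25 * V + 2 / 5 * M) * X ^ 2) ≤ 105 / 10 ^ 5 * (H * X ^ 2) := by
    have h1 : 8 / 25 * V + 2 / 5 * M ≤ 18 / 5 := by linarith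
    have h2 : η * ((8 / 25 * V + 2 / 5 * M) * X ^ 2) =
        (8 / 25 * V + 2 / 5 * M) * (η * X ^ 2) := by ring
    rw [h2]
    have h3 : (8 / 25 * V + 2 / 5 * M) * (η * X ^ 2) ≤ 18 / 5 * (η * X ^ 2) :=
      mul_le_mul_of_nonneg_right h1 (by positivity)
    linarith
  have eT : nT ≤ 32 / 10 ^ 5 * X ^ 2 + V * X ^ 2 + 11328 / 10000 * (H * X ^ 2) := by
    have h1 : η * (X * nt + (8 / 25 * V + 2 / 5 * M) * X ^ 2) =
        η * X * nt + η * ((8 / 25 * V + 2 / 5 * M) * X ^ 2) := by ring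
    rw [h1] at hnT
    have h2 : 6 * X * η ^ 2 = 6 * (X * η ^ 2) := by ring
    rw [h2] at hnT
    linarith
  have eνT : ν * nT ≤ 41 / 50 * (32 / 10 ^ 5 * X ^ 2 + V * X ^ 2 +
      11328 / 10000 * (H * X ^ 2)) := by
    have h1 : 0 ≤ 32 / 10 ^ 5 * X ^ 2 + V * X ^ 2 + 11328 / 10000 * (H * X ^ 2) := by positivity
    calc ν * nT ≤ ν * (32 / 10 ^ 5 * X ^ 2 + V * X ^ 2 + 11328 / 10000 * (H * X ^ 2)) :=
          mul_le_mul_of_nonneg_left eT hν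
      _ ≤ _ := mul_le_mul_of_nonneg_right hν2 h1
  -- S
  have eS : nS ≤ 6 * X := by
    have h1 : X * nt ≤ 1128 / 1000 * X := by nlinarith
    have h2 : nq1 ≤ 1 / 100 * X := by
      have h3 : M * X ^ 2 ≤ 5 * X ^ 2 := mul_le_mul_of_nonneg_right hM5 hXX.le
      nlinarith
    have h4 : η ≤ 20002 / 10000 * X := by nlinarith
    have h5 : |b0| ≤ 1 / 100 * X := by nlinarith
    linarith
  have eYS : nY * nS ≤ 13 / 10 ^ 4 * (H * X ^ 2) := by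
    calc nY * nS ≤ (201 / 10 ^ 6 * (H * X)) * (6 * X) :=
          mul_le_mul hnY eS hnS0 (by positivity)
      _ ≤ _ := by nlinarith
  have eb : |b0| ≤ 1 / 10 ^ 5 * X ^ 2 := by linarith
  have eq1 : nq1 ≤ 5 / 8 * (M * X ^ 2) := by linarith
  have e6 : η * (X * |a2| * nt + nq2) ≤ 18517 / 10000 * (H * X ^ 2) := by
    have h1 : η * (X * |a2| * nt + nq2) = |a2| * (η * X * nt) + η * nq2 := by ring
    rw [h1]
    have h2 : |a2| * (η * X * nt) ≤ 16403 / 10000 * (11282 / 10000 * (H * X ^ 2)) :=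
      mul_le_mul ha2 ent (by positivity) (by norm_num)
    have h3 : η * nq2 ≤ η * (5 / 8 * M * X ^ 2) := mul_le_mul_of_nonneg_left hnq2 hη
    have h4 : η * (5 / 8 * M * X ^ 2) = 5 / 8 * M * (η * X ^ 2) := by ring
    have h5 : 5 / 8 * M * (η * X ^ 2) ≤ 25 / 8 * (η * X ^ 2) :=
      mul_le_mul_of_nonneg_right (by linarith) (by positivity)
    linarith
  have e7 : η ^ 2 * nQ3 ≤ 3 / 1000 * (H * X ^ 2) := by
    have h1 : nQ3 ≤ 11 / 10000 := by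
      have h2 : X * (17 / 10) * nt ≤ (28 / 10 ^ 5 * (17 / 10)) * (1128 / 1000) :=
        mul_le_mul (by linarith) hnt hnt0 (by norm_num)
      have h3 : M * X ^ 2 ≤ 5 * X ^ 2 := mul_le_mul_of_nonneg_right hM5 hXX.le
      nlinarith
    calc η ^ 2 * nQ3 ≤ η ^ 2 * (11 / 10000) := mul_le_mul_of_nonneg_left h1 (by positivity)
      _ ≤ _ := by linarith
  have hVX : 0 ≤ V * X ^ 2 := by positivity
  have hMX : 0 ≤ M * X ^ 2 := by positivity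
  linarith

/-- SC-HG -/
theorem proof_HG (_hA1 : S_A1) (hA2 : S_A2) (hA3 : S_A3) (hAB : S_AB) (hB1 : S_B1) (hB2 : S_B2) :
    S_HG := by
  intro P X h v y hyp H V M hH0 hH2 hV0 hV5 hM0 hM5 hh hv hy
  obtain ⟨good, sol, hX1, hX2⟩ := hyp
  have ha0 : 0 < P.a 0 := good.a0
  have hs0 : 0 < Real.sqrt (P.a 0) := Real.sqrt_pos.2 ha0
  have hss : Real.sqrt (P.a 0) ^ 2 = P.a 0 := Real.sq_sqrt ha0.le
  have hX0 : 0 < X := lt_of_lt_of_le hs0 hX1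
  have ha0X : P.a 0 ≤ X ^ 2 := by
    rw [← hss]
    exact pow_le_pow_left₀ hs0.le hX1 2
  have hXl : |P.b 0| ≤ 1 / 10 ^ 6 * X ^ 2 := by
    have := good.b0
    linarith
  have hX28 : X ≤ 28 / 10 ^ 5 := by
    have h1 : X ^ 2 ≤ 25 * P.a 0 := by
      have h2 := pow_le_pow_left₀ hX0.le hX2 2
      rw [mul_pow, hss] at h2
      linarith
    have h3 := good.a0'
    by_contra hcon
    push Not at hcon
    nlinarith
  have hhs : ‖h‖ ≤ 56 / 10 ^ 5 := by nlinarith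
  have hh0 := norm_nonneg h
  obtain ⟨⟨-, -, b1, b2, b3, b4⟩, b5, -, -⟩ := hB1 P good h (by linarith)
  obtain ⟨b6, -⟩ := b5 sol.hc
  obtain ⟨a1, -, a3, a4, a5, -, -⟩ := hAB P good
  have dom : Dom X h v y := ⟨sol.hc, sol.hv, sol.hy, sol.nh, sol.nv, sol.ny⟩
  obtain ⟨-, -, c1, c2, c3⟩ := hB2 P good X h v y hX0 (by linarith) dom
  obtain ⟨-, -, d1, -, d2, -⟩ := c3 V M hV0 hV5 hM0 hM5 hv hy
  -- the norm of `xi`
  have hη0 := norm_nonneg (xi P h)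
  have hη : ‖xi P h‖ ≤ 10001 / 10000 * (H * X) := by
    have h1 : ‖xi P h‖ ≤ ‖xi P h - h‖ + ‖h‖ := by
      have := norm_add_le (xi P h - h) h
      rwa [sub_add_cancel] at this
    have h2 : ‖h‖ ^ 2 ≤ 1 * ‖h‖ := by nlinarith
    nlinarith
  have hη30 : ‖xi P h‖ ≤ 1 / 30 := by
    have : H * X ≤ 2 * (28 / 10 ^ 5) := mul_le_mul hH2 hX28 hX0.le (by norm_num)
    linarith
  -- the expansions
  obtain ⟨-, e1⟩ := hA3.2.1 (xi P h) (Vh P X h v y) (3 / 5 * X) c1 hη30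
  obtain ⟨-, e2⟩ := hA3.2.1 (xi P h) (Qh P X h v y) (3 / 5) c2 hη30
  have hT := e1 2
  have hS1 := e2 1
  have hS3 := e2 3
  have s1 : ∑ i ∈ Finset.range 1, ((-1 : ℝ) ^ i * (i.factorial : ℝ)⁻¹) •
      (xi P h ^ i * Qh P X h v y i) = Qh P X h v y 0 := by
    simp
  have s2 : ∑ i ∈ Finset.range 2, ((-1 : ℝ) ^ i * (i.factorial : ℝ)⁻¹) •
      (xi P h ^ i * Vh P X h v y i) = Vh P X h v y 0 - xi P h * Vh P X h v y 1 := by
    simp [Finset.sum_range_succ, sub_eq_add_neg]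
  have s3 : ∑ i ∈ Finset.range 3, ((-1 : ℝ) ^ i * (i.factorial : ℝ)⁻¹) •
      (xi P h ^ i * Qh P X h v y i) = Qh P X h v y 0 - xi P h * Qh P X h v y 1 +
        (1 / 2 : ℝ) • (xi P h ^ 2 * Qh P X h v y 2) := by
    simp [Finset.sum_range_succ, sub_eq_add_neg, Nat.factorial]
  rw [s1] at hS1
  rw [s2] at hT
  rw [s3] at hS3
  have q0 : Qh P X h v y 0 = P.b 0 • (1 : W) + (-X) • tau P h + qq P h v y 1 := by
    unfold Qh
    rw [zero_add, good.a1, mul_neg, mul_one]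
  have q1 : Qh P X h v y 1 = (-1 : ℝ) • (1 : W) + (X * P.a 2) • tau P h + qq P h v y 2 := by
    unfold Qh
    rw [good.b1]
  have v0 : Vh P X h v y 0 = (X * P.a 0) • tau P h + v := rfl
  have v1 : Vh P X h v y 1 = (-X) • tau P h + vv P h v y 1 := by
    unfold Vh
    rw [good.a1, mul_neg, mul_one]
  have hν0 : 0 ≤ P.nu := by linarith [good.nu1]
  have hnt0 := norm_nonneg (tau P h)
  -- norms
  have n1 : ‖TT (xi P h) (Vh P X h v y)‖ ≤ (X * P.a 0 * ‖tau P h‖ + V * X ^ 2) +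
      ‖xi P h‖ * (X * ‖tau P h‖ + (8 / 25 * V + 2 / 5 * M) * X ^ 2) + 6 * X * ‖xi P h‖ ^ 2 := by
    have m1 : ‖Vh P X h v y 0‖ ≤ X * P.a 0 * ‖tau P h‖ + V * X ^ 2 := by
      rw [v0]
      refine (norm_add_le _ _).trans (add_le_add (le_of_eq ?_) hv)
      rw [norm_smul, Real.norm_eq_abs, abs_of_nonneg (by positivity)]
    have m2 : ‖Vh P X h v y 1‖ ≤ X * ‖tau P h‖ + (8 / 25 * V + 2 / 5 * M) * X ^ 2 := by
      rw [v1]
      refine (norm_add_le _ _).trans (add_le_add (le_of_eq ?_) d2)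
      rw [norm_smul, Real.norm_eq_abs, abs_neg, abs_of_pos hX0]
    have m3 : ‖xi P h * Vh P X h v y 1‖ ≤
        ‖xi P h‖ * (X * ‖tau P h‖ + (8 / 25 * V + 2 / 5 * M) * X ^ 2) :=
      (norm_mul_le _ _).trans (mul_le_mul_of_nonneg_left m2 hη0)
    have m4 := norm_sub_le (Vh P X h v y 0) (xi P h * Vh P X h v y 1)
    have m5 := norm_add_le (TT (xi P h) (Vh P X h v y) -
      (Vh P X h v y 0 - xi P h * Vh P X h v y 1)) (Vh P X h v y 0 - xi P h * Vh P X h v y 1)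
    rw [sub_add_cancel] at m5
    have m6 : 10 / 9 * (3 / 5 * X) * (3 * ‖xi P h‖) ^ 2 = 6 * X * ‖xi P h‖ ^ 2 := by ring
    rw [m6] at hT
    linarith
  have m0 : ‖Qh P X h v y 0‖ ≤ |P.b 0| + X * ‖tau P h‖ + ‖qq P h v y 1‖ := by
    rw [q0]
    refine (norm_add_le _ _).trans (add_le_add ((norm_add_le _ _).trans (add_le_add ?_ ?_)) le_rfl)
    · rw [norm_smul, Real.norm_eq_abs, norm_one, mul_one]
    · rw [norm_smul, Real.norm_eq_abs, abs_neg, abs_of_pos hX0]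
  have n2 : ‖TT (xi P h) (Qh P X h v y)‖ ≤ (|P.b 0| + X * ‖tau P h‖ + ‖qq P h v y 1‖) +
      2 * ‖xi P h‖ := by
    have m5 := norm_add_le (TT (xi P h) (Qh P X h v y) - Qh P X h v y 0) (Qh P X h v y 0)
    rw [sub_add_cancel] at m5
    have m6 : 10 / 9 * (3 / 5 : ℝ) * (3 * ‖xi P h‖) ^ 1 = 2 * ‖xi P h‖ := by ring
    rw [m6] at hS1
    linarith
  have n3 : ‖Qh P X h v y 2‖ ≤ 5 / 10000 + X * (17 / 10) * ‖tau P h‖ + 5 / 8 * M * X ^ 2 := by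
    have q2 : Qh P X h v y 2 = P.b 2 • (1 : W) + (X * P.a 3) • tau P h + qq P h v y 3 := rfl
    rw [q2]
    refine (norm_add_le _ _).trans (add_le_add ((norm_add_le _ _).trans (add_le_add ?_ ?_)) (d1 2))
    · rw [norm_smul, Real.norm_eq_abs, norm_one, mul_one]
      exact a4
    · rw [norm_smul, Real.norm_eq_abs, abs_mul, abs_of_pos hX0]
      exact mul_le_mul_of_nonneg_right (mul_le_mul_of_nonneg_left a5 hX0.le) hnt0
  have n4 : ‖TT (xi P h) (Qh P X h v y) - (Qh P X h v y 0 - xi P h * Qh P X h v y 1 +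
        (1 / 2 : ℝ) • (xi P h ^ 2 * Qh P X h v y 2))‖ ≤ 18 * ‖xi P h‖ ^ 3 := by
    have m6 : 10 / 9 * (3 / 5 : ℝ) * (3 * ‖xi P h‖) ^ 3 = 18 * ‖xi P h‖ ^ 3 := by ring
    rw [m6] at hS3
    exact hS3
  have ha2 : |P.a 2| ≤ 16403 / 10000 := by
    have h1 := abs_le.1 a3
    have h2 := good.nu2
    rw [abs_le]
    constructor <;> linarith
  have hEE : (P.nu / 2) • (TT (xi P h) (Vh P X h v y) + conj (TT (xi P h) (Vh P X h v y))) -
      (1 / 2 : ℝ) • (YY P h * (TT (xi P h) (Qh P X h v y) +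
        conj (TT (xi P h) (Qh P X h v y)))) = 0 := sol.eE
  have hS : TT (xi P h) (Qh P X h v y) = (P.b 0 • (1 : W) + (-X) • tau P h + qq P h v y 1) -
      xi P h * ((-1 : ℝ) • (1 : W) + (X * P.a 2) • tau P h + qq P h v y 2) +
      (1 / 2 : ℝ) • (xi P h ^ 2 * Qh P X h v y 2) +
      (TT (xi P h) (Qh P X h v y) - (Qh P X h v y 0 - xi P h * Qh P X h v y 1 +
        (1 / 2 : ℝ) • (xi P h ^ 2 * Qh P X h v y 2))) := by
    rw [← q0, ← q1]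
    abel
  have key := hg_norm hA2 b6 hEE hS hν0 hX0.le
  have num := hg_num (nt := ‖tau P h‖) (ntm := ‖tau P h - mon wW 1‖)
    (nT := ‖TT (xi P h) (Vh P X h v y)‖) (nY := ‖YY P h - 1‖)
    (nS := ‖TT (xi P h) (Qh P X h v y)‖) (nq1 := ‖qq P h v y 1‖) (nq2 := ‖qq P h v y 2‖)
    (nQ3 := ‖Qh P X h v y 2‖) (nR := ‖TT (xi P h) (Qh P X h v y) - (Qh P X h v y 0 -
      xi P h * Qh P X h v y 1 + (1 / 2 : ℝ) • (xi P h ^ 2 * Qh P X h v y 2))‖)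
    hX0 hX28 hH0 hH2 hV0 hV5 hM0 hM5 ha0X hXl hν0 good.nu2 ha2 hη0 hη b2 hnt0
    (by linarith) n1 (by linarith) (norm_nonneg _) n2 (d1 0) (d1 1) (norm_nonneg _) n3 n4
  have fin1 : ‖xi P h - X • cc‖ ≤
      (379 / 100 * H + 83 / 100 * V + 63 / 100 * M + 1 / 20) * X ^ 2 := key.trans num
  have hHX : 0 ≤ H * X ^ 2 := by positivity
  constructor
  · have h1 : ‖h - X • cc‖ ≤ ‖xi P h - X • cc‖ + ‖xi P h - h‖ := by
      have h2 : h - X • cc = (xi P h - X • cc) - (xi P h - h) := by abel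
      rw [h2]
      exact norm_sub_le _ _
    have h3 : ‖h‖ ^ 2 ≤ 2 * (H * X ^ 2) := by
      have h4 : ‖h‖ ^ 2 ≤ (H * X) ^ 2 := pow_le_pow_left₀ hh0 hh 2
      have h5 : (H * X) ^ 2 = H * (H * X ^ 2) := by ring
      rw [h5] at h4
      have h6 : H * (H * X ^ 2) ≤ 2 * (H * X ^ 2) := mul_le_mul_of_nonneg_right hH2 hHX
      linarith
    linarith
  · linarith

end Pool.Agent.H957.HE.SC

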