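import Pool.Agent.H957.HE.Stm

/-!
Project SC (helper229), problem MP_83fd13_an: the map preserves the domain (helper674).
-/

set_option autoImplicit false

open Set Filter Topology

namespace Pool.Agent.H957.HE.SC

open Pool.Agent.N229.SC

private theorem self_sum2 (ξ : W) (c : ℕ → W) :
    ∑ i ∈ Finset.range 2, ((-1 : ℝ) ^ i * (i.factorial : ℝ)⁻¹) • (ξ ^ i * c i) = c 0 - ξ * c 1 := by
  rw [Finset.sum_range_succ, Finset.sum_range_one]
  simp only [pow_zero, pow_one, Nat.factorial_zero, Nat.factorial_one, Nat.cast_one, inv_one,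
    mul_one, one_mul, one_smul, neg_smul]
  rw [sub_eq_add_neg]

private theorem self_norm3 (a b c : W) : ‖a - b + c‖ ≤ ‖a‖ + ‖b‖ + ‖c‖ :=
  (norm_add_le _ _).trans (add_le_add (norm_sub_le _ _) le_rfl)

theorem proof_SELF (hA1 : S_A1) (hA2 : S_A2) (hA3 : S_A3) (hAB : S_AB) (hB1 : S_B1)
    (hB2 : S_B2) : S_SELF := by
  intro P hP X h v y hX1 hX2 hD
  obtain ⟨⟨inc_cf, -, -, inc_le, -⟩, ⟨conj_cf, conj_mul, -, conj_norm, conj_conj⟩, -, -,
    ⟨pi_cf, pi_le⟩, ⟨-, -, -, res_inc2⟩⟩ := hA2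
  obtain ⟨-, w_sub, -, -, -, -, -, -, -, w_ext, -, -, -⟩ := hA1 wW
  obtain ⟨a_add, a_sub, -, -, a_smul, a_mon, -, -, -, -, -, a_sup, -⟩ := hA1 wA
  obtain ⟨-, hTT, -, -⟩ := hA3
  obtain ⟨-, -, hab2, -, -, -, hn⟩ := hAB P hP
  -- numbers
  have ha0 := hP.a0
  have hb0 := hP.b0
  have hnu1 := hP.nu1
  have hnu2 := hP.nu2
  have ha0p : 0 < P.a 0 := ha0
  have hX0 : 0 < X := (Real.sqrt_pos.2 ha0p).trans_le hX1
  have haX : P.a 0 ≤ X ^ 2 := by
    have h1 : Real.sqrt (P.a 0) ^ 2 = P.a 0 := Real.sq_sqrt ha0p.le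
    rw [← h1]
    exact pow_le_pow_left₀ (Real.sqrt_nonneg _) hX1 2
  have hXX : X ^ 2 ≤ 3 / 10 ^ 4 * X := by
    rw [pow_two]
    exact mul_le_mul_of_nonneg_right hX2 hX0.le
  have hX3 : X ^ 3 ≤ 3 / 10 ^ 4 * X ^ 2 := by
    have : X ^ 3 = X * X ^ 2 := by ring
    rw [this]
    exact mul_le_mul_of_nonneg_right hX2 (sq_nonneg X)
  have hX2p : 0 < X ^ 2 := by positivity
  have hX3p : 0 < X ^ 3 := by positivity
  have hh := hD.nh
  have hh0 : ‖h‖ ≤ 1 / 1000 := by linarith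
  obtain ⟨⟨-, hbeta, -, htau, hYY, hxi⟩, hconj, ⟨-, -, hbsup, -, -⟩, -⟩ := hB1 P hP h hh0
  obtain ⟨hxic, hYc⟩ := hconj hD.hc
  obtain ⟨hqs, hvs, hV, hQ, hqv⟩ := hB2 P hP X h v y hX0 hX2 hD
  obtain ⟨-, hq0, hq1, hq1i, hv1, -⟩ := hqv 5 5 (by norm_num) le_rfl (by norm_num) le_rfl hD.nv hD.ny
  -- the size of xi
  have hxi2 : ‖xi P h - h‖ ≤ 1 / 1000 * X ^ 2 := by
    have h1 : ‖h‖ ^ 2 ≤ (2 * X) ^ 2 := pow_le_pow_left₀ (norm_nonneg _) hh 2
    linarith [hxi, h1, (by ring : (2 * X) ^ 2 = 4 * X ^ 2)]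
  have hxn : ‖xi P h‖ ≤ 20001 / 10000 * X := by
    have h1 : ‖xi P h‖ ≤ ‖xi P h - h‖ + ‖h‖ := by
      have := norm_add_le (xi P h - h) h
      rwa [sub_add_cancel] at this
    linarith
  have hx30 : ‖xi P h‖ ≤ 1 / 30 := by linarith
  have hxsq : ‖xi P h‖ ^ 2 ≤ 401 / 100 * X ^ 2 := by
    have h1 : ‖xi P h‖ ^ 2 ≤ (20001 / 10000 * X) ^ 2 := pow_le_pow_left₀ (norm_nonneg _) hxn 2
    nlinarith
  have hYn : ‖YY P h‖ ≤ 1001 / 1000 := by
    have h1 : ‖YY P h‖ ≤ ‖YY P h - 1‖ + ‖(1 : W)‖ := by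
      have := norm_add_le (YY P h - 1) 1
      rwa [sub_add_cancel] at this
    rw [norm_one] at h1
    linarith
  -- the series
  obtain ⟨-, hTV⟩ := hTT (xi P h) (Vh P X h v y) (3 / 5 * X) hV hx30
  obtain ⟨-, hTQ⟩ := hTT (xi P h) (Qh P X h v y) (3 / 5) hQ hx30
  have hTV2 := hTV 2
  have hTQ2 := hTQ 2
  rw [self_sum2] at hTV2 hTQ2
  have hV0e : Vh P X h v y 0 = (X * P.a 0) • tau P h + v := rfl
  have hV1e : Vh P X h v y 1 = (-X) • tau P h + vv P h v y 1 := by
    change (X * P.a 1) • tau P h + vv P h v y 1 = _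
    rw [hP.a1, mul_neg, mul_one]
  have hQ0e : Qh P X h v y 0 = P.b 0 • (1 : W) + (-X) • tau P h + qq P h v y 1 := by
    change P.b 0 • (1 : W) + (X * P.a 1) • tau P h + qq P h v y 1 = _
    rw [hP.a1, mul_neg, mul_one]
  have hQ1e : Qh P X h v y 1 = -1 + ((X * P.a 2) • tau P h + qq P h v y 2) := by
    change P.b 1 • (1 : W) + (X * P.a 2) • tau P h + qq P h v y 2 = _
    rw [hP.b1, neg_one_smul, add_assoc]
  set TV : W := TT (xi P h) (Vh P X h v y) with hTVdef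
  set TQ : W := TT (xi P h) (Qh P X h v y) with hTQdef
  -- the remainders
  obtain ⟨R1, hR1⟩ : ∃ R1 : W, R1 = TV - (Vh P X h v y 0 - xi P h * Vh P X h v y 1) := ⟨_, rfl⟩
  obtain ⟨R2, hR2⟩ : ∃ R2 : W, R2 = TQ - (Qh P X h v y 0 - xi P h * Qh P X h v y 1) := ⟨_, rfl⟩
  rw [← hR1] at hTV2
  rw [← hR2] at hTQ2
  have hR1n : ‖R1‖ ≤ 241 / 10 * X ^ 3 := by
    have h1 : 10 / 9 * (3 / 5 * X) * (3 * ‖xi P h‖) ^ 2 = 6 * X * ‖xi P h‖ ^ 2 := by ring
    rw [h1] at hTV2
    have h2 : 6 * X * ‖xi P h‖ ^ 2 ≤ 6 * X * (401 / 100 * X ^ 2) :=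
      mul_le_mul_of_nonneg_left hxsq (by positivity)
    have h3 : 6 * X * (401 / 100 * X ^ 2) = 2406 / 100 * X ^ 3 := by ring
    linarith
  have hR2n : ‖R2‖ ≤ 241 / 10 * X ^ 2 := by
    have h1 : 10 / 9 * (3 / 5 : ℝ) * (3 * ‖xi P h‖) ^ 2 = 6 * ‖xi P h‖ ^ 2 := by ring
    rw [h1] at hTQ2
    linarith
  have hTVe : TV = Vh P X h v y 0 - xi P h * Vh P X h v y 1 + R1 := by rw [hR1]; ring
  have hTQe : TQ = Qh P X h v y 0 - xi P h * Qh P X h v y 1 + R2 := by rw [hR2]; ring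
  -- sizes of V_0, V_1
  have htX : ∀ r : ℝ, ‖r • tau P h‖ ≤ |r| * (1128 / 1000) := by
    intro r
    rw [norm_smul, Real.norm_eq_abs]
    exact mul_le_mul_of_nonneg_left htau (abs_nonneg _)
  have hX0a : |X * P.a 0| ≤ X ^ 3 := by
    rw [abs_of_nonneg (by positivity)]
    have : X * P.a 0 ≤ X * X ^ 2 := mul_le_mul_of_nonneg_left haX hX0.le
    linarith [(by ring : X * X ^ 2 = X ^ 3)]
  have hV1n : ‖Vh P X h v y 1‖ ≤ 1128 / 1000 * X + 18 / 5 * X ^ 2 := by
    rw [hV1e]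
    refine (norm_add_le _ _).trans ?_
    have h1 := htX (-X)
    rw [abs_neg, abs_of_pos hX0] at h1
    linarith
  have hxV : ‖xi P h * Vh P X h v y 1‖ ≤ 226 / 100 * X ^ 2 := by
    refine (norm_mul_le _ _).trans ?_
    refine (mul_le_mul hxn hV1n (norm_nonneg _) (by positivity)).trans ?_
    nlinarith
  have hRn : ‖-(xi P h * Vh P X h v y 1) + R1‖ ≤ 227 / 100 * X ^ 2 := by
    refine (norm_add_le _ _).trans ?_
    rw [norm_neg]
    linarith
  have hTVn : ‖TV‖ ≤ 73 / 10 * X ^ 2 := by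
    have h1 : TV = ((X * P.a 0) • tau P h + v) + (-(xi P h * Vh P X h v y 1) + R1) := by
      rw [hTVe, hV0e]; ring
    rw [h1]
    refine (norm_add_le _ _).trans ?_
    have h2 := norm_add_le ((X * P.a 0) • tau P h) v
    have h3 := htX (X * P.a 0)
    have h4 := hD.nv
    have h5 : |X * P.a 0| * (1128 / 1000) ≤ X ^ 3 * (1128 / 1000) :=
      mul_le_mul_of_nonneg_right hX0a (by norm_num)
    linarith
  -- E1 = TQ - xi
  obtain ⟨E1, hE1⟩ : ∃ E1 : W, E1 = TQ - xi P h := ⟨_, rfl⟩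
  have hE1n : ‖E1‖ ≤ 114 / 100 * X := by
    have h1 : E1 = (P.b 0 • (1 : W) + (-X) • tau P h + qq P h v y 1) -
        xi P h * ((X * P.a 2) • tau P h + qq P h v y 2) + R2 := by
      rw [hE1, hTQe, hQ0e, hQ1e]; ring
    rw [h1]
    refine (self_norm3 _ _ _).trans ?_
    have h2 : ‖P.b 0 • (1 : W) + (-X) • tau P h + qq P h v y 1‖ ≤
        ‖P.b 0 • (1 : W)‖ + ‖(-X) • tau P h‖ + ‖qq P h v y 1‖ := norm_add₃_le
    have h3 : ‖P.b 0 • (1 : W)‖ ≤ 1 / 10 ^ 6 * X ^ 2 := by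
      rw [norm_smul, norm_one, mul_one, Real.norm_eq_abs]
      linarith
    have h4 := htX (-X)
    rw [abs_neg, abs_of_pos hX0] at h4
    have h5 := hq1 0
    have h6 : |X * P.a 2| ≤ 165 / 100 * X := by
      rw [abs_mul, abs_of_pos hX0]
      have h7 : |P.a 2| ≤ 165 / 100 := by
        rw [abs_le] at hab2 ⊢
        constructor <;> linarith [hab2.1, hab2.2]
      nlinarith
    have h7 : ‖(X * P.a 2) • tau P h + qq P h v y 2‖ ≤ 19 / 10 * X := by
      refine (norm_add_le _ _).trans ?_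
      have h8 := htX (X * P.a 2)
      have h9 := hq1 1
      have h10 : |X * P.a 2| * (1128 / 1000) ≤ 165 / 100 * X * (1128 / 1000) :=
        mul_le_mul_of_nonneg_right h6 (by norm_num)
      have h11 : ‖qq P h v y 2‖ ≤ 5 / 8 * 5 * X ^ 2 := h9
      linarith
    have h8 : ‖xi P h * ((X * P.a 2) • tau P h + qq P h v y 2)‖ ≤ 4 * X ^ 2 := by
      refine (norm_mul_le _ _).trans ?_
      refine (mul_le_mul hxn h7 (norm_nonneg _) (by positivity)).trans ?_
      nlinarith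
    have h5' : ‖qq P h v y 1‖ ≤ 5 / 8 * 5 * X ^ 2 := h5
    linarith
  have hTQe2 : TQ = xi P h + E1 := by rw [hE1]; ring
  refine ⟨?_, ?_, ?_, ?_, ?_, ?_⟩
  · -- conj
    have h1 : conj (EE P X h v y) = EE P X h v y := by
      unfold EE
      rw [← hTVdef, ← hTQdef, map_sub, map_smul, map_smul, conj_mul, map_add, map_add, conj_conj,
        conj_conj, hYc, add_comm (conj TV), add_comm (conj TQ)]
    rw [map_add, hD.hc, h1]
  · -- support of v
    intro j hj
    rw [w_sub, pi_cf, if_neg (by omega), hD.hv j hj, sub_zero]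
  · -- support of y
    intro i j hj
    have hq : ∀ i, ∀ j < 2, cf (inc (qq P h v y i)) j = 0 := by
      intro i j hj
      rw [inc_cf]
      exact hqs i j hj
    have h1 : ∀ j < 0, cf (1 + beta P h) j = 0 := by
      intro j hj
      rw [a_add, one_def, a_mon, if_neg (by omega), hbsup j (by omega), add_zero]
    have h2 : ∀ j < 2, cf (inc (qq P h v y i + qq P h v y (i + 2))) j = 0 := by
      intro j hj
      rw [map_add, a_add, hq i j hj, hq (i + 2) j hj, add_zero]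
    have h3 : ∀ j < 0, cf (beta P h) j = 0 := fun j hj => hbsup j (by omega)
    have h4 := (a_sup 0 2 _ _ h1 h2).1 j (by omega)
    have h5 := (a_sup 0 2 _ _ h3 (hq (i + 1))).1 j (by omega)
    unfold RH
    rw [a_sub, a_smul, a_smul, h4, h5, mul_zero, mul_zero, sub_zero]
  · -- norm of h
    have h1 : h + EE P X h v y = (h - xi P h) + (1 - YY P h) * xi P h +
        (P.nu / 2) • (TV + conj TV) - (1 / 2 : ℝ) • (YY P h * (E1 + conj E1)) := by
      unfold EE
      rw [← hTVdef, ← hTQdef, hTQe2, map_add, hxic]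
      have h2 : YY P h * (xi P h + E1 + (xi P h + conj E1)) =
          (2 : ℝ) • (YY P h * xi P h) + YY P h * (E1 + conj E1) := by
        rw [two_smul]; ring
      have h3 : (1 / 2 : ℝ) • ((2 : ℝ) • (YY P h * xi P h) + YY P h * (E1 + conj E1)) =
          YY P h * xi P h + (1 / 2 : ℝ) • (YY P h * (E1 + conj E1)) := by
        rw [smul_add, smul_smul, show (1 / 2 : ℝ) * 2 = 1 by norm_num, one_smul]
      rw [h2, h3]
      ring
    rw [h1]
    have n1 : ‖h - xi P h‖ ≤ 1 / 1000 * X ^ 2 := by rw [norm_sub_rev]; exact hxi2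
    have n2 : ‖(1 - YY P h) * xi P h‖ ≤ X ^ 2 := by
      refine (norm_mul_le _ _).trans ?_
      rw [norm_sub_rev]
      have h2 : ‖YY P h - 1‖ ≤ 1 / 100 * X := by linarith
      refine (mul_le_mul h2 hxn (norm_nonneg _) (by positivity)).trans ?_
      nlinarith
    have n3 : ‖(P.nu / 2) • (TV + conj TV)‖ ≤ 6 * X ^ 2 := by
      rw [norm_smul, Real.norm_eq_abs, abs_of_nonneg (by linarith)]
      have h2 : ‖TV + conj TV‖ ≤ 146 / 10 * X ^ 2 := by
        refine (norm_add_le _ _).trans ?_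
        rw [conj_norm]
        linarith
      have h3 : P.nu / 2 ≤ 41 / 100 := by linarith
      refine (mul_le_mul h3 h2 (norm_nonneg _) (by norm_num)).trans ?_
      linarith
    have n4 : ‖(1 / 2 : ℝ) • (YY P h * (E1 + conj E1))‖ ≤ 115 / 100 * X := by
      rw [norm_smul, Real.norm_eq_abs, abs_of_pos (by norm_num)]
      have h2 : ‖E1 + conj E1‖ ≤ 228 / 100 * X := by
        refine (norm_add_le _ _).trans ?_
        rw [conj_norm]
        linarith
      have h3 : ‖YY P h * (E1 + conj E1)‖ ≤ 1001 / 1000 * (228 / 100 * X) :=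
        (norm_mul_le _ _).trans (mul_le_mul hYn h2 (norm_nonneg _) (by norm_num))
      linarith
    have n5 := norm_sub_le ((h - xi P h) + (1 - YY P h) * xi P h + (P.nu / 2) • (TV + conj TV))
      ((1 / 2 : ℝ) • (YY P h * (E1 + conj E1)))
    have n6 : ‖(h - xi P h) + (1 - YY P h) * xi P h + (P.nu / 2) • (TV + conj TV)‖ ≤
      ‖h - xi P h‖ + ‖(1 - YY P h) * xi P h‖ + ‖(P.nu / 2) • (TV + conj TV)‖ := norm_add₃_le
    linarith
  · -- norm of v
    have hpv : Pi2 (v - conj v) = v := by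
      apply w_ext
      intro j
      rw [pi_cf]
      by_cases hj : 2 ≤ j
      · rw [if_pos hj, w_sub, conj_cf, hD.hv (-j) (by omega), sub_zero]
      · rw [if_neg hj, hD.hv j (by omega)]
    obtain ⟨R, hR⟩ : ∃ R : W, R = -(xi P h * Vh P X h v y 1) + R1 := ⟨_, rfl⟩
    rw [← hR] at hRn
    have h1 : TV = (X * P.a 0) • tau P h + v + R := by
      rw [hTVe, hV0e, hR]; ring
    have h2 : OO P X h v y = (v - conj v) + ((X * P.a 0) • (tau P h - conj (tau P h)) +
        (R - conj R)) := by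
      unfold OO
      rw [← hTVdef, h1, map_add, map_add, map_smul, smul_sub]
      ring
    have h3 : v - Pi2 (OO P X h v y) = -Pi2 ((X * P.a 0) • (tau P h - conj (tau P h)) +
        (R - conj R)) := by
      rw [h2, map_add, hpv]
      ring
    rw [h3, norm_neg]
    refine (pi_le _).trans ?_
    refine (norm_add_le _ _).trans ?_
    have n1 : ‖R - conj R‖ ≤ 454 / 100 * X ^ 2 := by
      refine (norm_sub_le _ _).trans ?_
      rw [conj_norm]
      linarith
    have n2 : ‖(X * P.a 0) • (tau P h - conj (tau P h))‖ ≤ X ^ 3 * 3 := by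
      rw [norm_smul, Real.norm_eq_abs]
      refine mul_le_mul hX0a ?_ (norm_nonneg _) hX3p.le
      refine (norm_sub_le _ _).trans ?_
      rw [conj_norm]
      linarith
    linarith
  · -- norm of y
    intro i
    have hqi : ∀ i, ‖inc (qq P h v y i)‖ ≤ 5 / 2 * X ^ 2 := by
      intro i
      cases i with
      | zero => linarith
      | succ i => have := hq1i i; linarith
    have hbn : ‖beta P h‖ ≤ 4 / 1000 := by
      have h1 : 8 * P.nu * ‖h‖ ≤ 8 * (41 / 50) * (6 / 10 ^ 4) := by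
        have h2 : ‖h‖ ≤ 6 / 10 ^ 4 := by linarith
        exact mul_le_mul (by linarith) h2 (norm_nonneg _) (by norm_num)
      norm_num at h1
      linarith
    have hb1 : ‖1 + beta P h‖ ≤ 1004 / 1000 := by
      refine (norm_add_le _ _).trans ?_
      rw [norm_one]
      linarith
    unfold RH
    refine (norm_sub_le _ _).trans ?_
    have n1 : ‖(1 / (2 * P.nu)) • ((1 + beta P h) * inc (qq P h v y i + qq P h v y (i + 2)))‖ ≤
        5 / 8 * (1004 / 1000 * (5 * X ^ 2)) := by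
      rw [norm_smul, Real.norm_eq_abs, abs_of_pos (by positivity)]
      have h1 : 1 / (2 * P.nu) ≤ 5 / 8 := by
        rw [div_le_div_iff₀ (by linarith) (by norm_num)]
        linarith
      refine mul_le_mul h1 ?_ (norm_nonneg _) (by norm_num)
      refine (norm_mul_le _ _).trans ?_
      refine mul_le_mul hb1 ?_ (norm_nonneg _) (by norm_num)
      rw [map_add]
      refine (norm_add_le _ _).trans ?_
      have h2 := hqi i
      have h3 := hqi (i + 2)
      linarith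
    have n2 : ‖(((i : ℝ) + 1) / P.n) • (beta P h * inc (qq P h v y (i + 1)))‖ ≤
        4 / 1000 * (5 * X ^ 2) := by
      have h1 : (0 : ℝ) ≤ ((i : ℝ) + 1) / P.n := by positivity
      rw [norm_smul, Real.norm_eq_abs, abs_of_nonneg h1]
      have h2 : ‖beta P h * inc (qq P h v y (i + 1))‖ ≤ ‖beta P h‖ * ‖inc (qq P h v y (i + 1))‖ :=
        norm_mul_le _ _
      have h3 := res_inc2 P.n (i + 1) (y i)
      have h4 : ((i : ℝ) + 1) / P.n * ‖inc (qq P h v y (i + 1))‖ ≤ 5 * X ^ 2 := by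
        have h5 := hD.ny i
        rw [Nat.cast_add, Nat.cast_one] at h3
        exact h3.trans h5
      calc ((i : ℝ) + 1) / P.n * ‖beta P h * inc (qq P h v y (i + 1))‖
          ≤ ((i : ℝ) + 1) / P.n * (‖beta P h‖ * ‖inc (qq P h v y (i + 1))‖) :=
            mul_le_mul_of_nonneg_left h2 h1
        _ = ‖beta P h‖ * (((i : ℝ) + 1) / P.n * ‖inc (qq P h v y (i + 1))‖) := by ring
        _ ≤ 4 / 1000 * (5 * X ^ 2) :=
            mul_le_mul hbn h4 (mul_nonneg h1 (norm_nonneg _)) (by norm_num)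
    linarith

end Pool.Agent.H957.HE.SC
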