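import Pool.Agent.H957.HE.Stm

/-!
Project SC (helper229), part RV: the coefficient of `t ^ 2` of `q_1`. By helper488.
-/

set_option autoImplicit false

open Set Filter Topology

namespace Pool.Agent.H957.HE.SC

open Pool.Agent.N229.SC

private theorem rv_X {P : Par} {X : ℝ} {h v : W} {y : ℕ → A} (H : Hyp P X h v y) :
    0 < X ∧ X ≤ 3 / 10 ^ 4 := by
  have h0 := H.good.a0
  have h0' := H.good.a0'
  have h1 : 0 < Real.sqrt (P.a 0) := Real.sqrt_pos.2 h0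
  have h2 : Real.sqrt (P.a 0) ≤ 3 / 5 / 10 ^ 4 := by
    rw [Real.sqrt_le_left (by norm_num)]
    refine h0'.trans ?_
    norm_num
  refine ⟨h1.trans_le H.X1, H.X2.trans ?_⟩
  linarith

/-- A bounded sequence with `|θ_{i+1}| ≤ c (|θ_i| + |θ_{i+2}|)`, `c ≤ 5/16`. -/
private theorem rv_seq {θ : ℕ → ℝ} {c B : ℝ} (hc0 : 0 ≤ c) (hc : c ≤ 5 / 16)
    (hB : ∀ i, |θ (i + 1)| ≤ B) (hr : ∀ i, |θ (i + 1)| ≤ c * (|θ i| + |θ (i + 2)|)) :
    |θ 1| ≤ 2 * c * |θ 0| := by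
  have hbdd : BddAbove (Set.range (fun i => |θ (i + 1)|)) := ⟨B, by rintro _ ⟨i, rfl⟩; exact hB i⟩
  obtain ⟨m, hm⟩ : ∃ m : ℝ, m = ⨆ i, |θ (i + 1)| := ⟨_, rfl⟩
  have hle : ∀ i, |θ (i + 1)| ≤ m := fun i => hm ▸ le_ciSup hbdd i
  have hm0 : 0 ≤ m := (abs_nonneg _).trans (hle 0)
  have hmx : ∀ i, |θ i| ≤ max m |θ 0| := by
    intro i
    cases i with
    | zero => exact le_max_right _ _
    | succ i => exact (hle i).trans (le_max_left _ _)
  have hM : m ≤ 5 / 8 * max m |θ 0| := by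
    rw [hm]
    refine ciSup_le fun i => ?_
    rw [← hm]
    have h1 := hr i
    have h2 := hmx i
    have h3 := hmx (i + 2)
    have h4 : 0 ≤ max m |θ 0| := hm0.trans (le_max_left _ _)
    calc |θ (i + 1)| ≤ c * (|θ i| + |θ (i + 2)|) := h1
      _ ≤ c * (max m |θ 0| + max m |θ 0|) := by gcongr
      _ ≤ 5 / 16 * (max m |θ 0| + max m |θ 0|) := by gcongr
      _ = _ := by ring
  have hm1 : m ≤ |θ 0| := by
    rcases le_total m |θ 0| with h | h
    · exact h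
    · rw [max_eq_left h] at hM
      have : m ≤ 0 := by linarith
      exact this.trans (abs_nonneg _)
  have h2 : |θ 2| ≤ |θ 0| := (hle 1).trans hm1
  calc |θ 1| ≤ c * (|θ 0| + |θ 2|) := hr 0
    _ ≤ c * (|θ 0| + |θ 0|) := by gcongr
    _ = _ := by ring

/-- SC-RV. -/
theorem proof_RV (hA1 : S_A1) (hA2 : S_A2) (_hA3 : S_A3) (_hAB : S_AB) (hB1 : S_B1)
    (hB2 : S_B2) : S_RV := by
  intro P X h v y H
  obtain ⟨hX0, hX⟩ := rv_X H
  have hdom : Dom X h v y :=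
    ⟨H.sol.hc, H.sol.hv, H.sol.hy, H.sol.nh, H.sol.nv, H.sol.ny⟩
  obtain ⟨Aadd, Asub, -, -, Asmul, Amon, -, -, -, -, -, Amul, -⟩ := hA1 wA
  obtain ⟨Wadd, Wsub, -, -, Wsmul, -, Wbd, -, -, -, -, -, -⟩ := hA1 wW
  obtain ⟨⟨inc_cf, -⟩, -, -, -, -, ⟨res_cf, -⟩⟩ := hA2
  have hh : ‖h‖ ≤ 1 / 1000 := by
    refine H.sol.nh.trans ?_
    linarith
  obtain ⟨-, -, ⟨-, -, hbeta, -⟩, -⟩ := hB1 P H.good h hh
  obtain ⟨hq, -, -, -, hbd⟩ := hB2 P H.good X h v y hX0 hX hdom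
  obtain ⟨-, -, hqn, -⟩ := hbd 5 5 (by norm_num) le_rfl (by norm_num) le_rfl H.sol.nv H.sol.ny
  -- the coefficient of a product with `1 + β`
  have h1b : ∀ j < (0 : ℤ), cf (1 + beta P h) j = 0 := by
    intro j hj
    rw [Aadd, one_def, Amon, if_neg (by omega), hbeta j (by omega), add_zero]
  have h1b0 : cf (1 + beta P h) 0 = 1 := by
    rw [Aadd, one_def, Amon, if_pos rfl, hbeta 0 (by omega), add_zero]
  have hprod : ∀ b : A, (∀ j < (2 : ℤ), cf b j = 0) → cf ((1 + beta P h) * b) 2 = cf b 2 := by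
    intro b hb
    have := (Amul 0 2 (1 + beta P h) b h1b hb).2
    rw [zero_add, h1b0, one_mul] at this
    exact this
  have hprod' : ∀ b : A, (∀ j < (2 : ℤ), cf b j = 0) → cf (beta P h * b) 2 = 0 := by
    intro b hb
    have h1 : ∀ j < (0 : ℤ), cf (beta P h) j = 0 := fun j hj => hbeta j (by omega)
    have := (Amul 0 2 (beta P h) b h1 hb).2
    rw [zero_add, hbeta 0 (by omega), zero_mul] at this
    exact this
  obtain ⟨θ, hθ⟩ : ∃ θ : ℕ → ℝ, ∀ i, θ i = cf (qq P h v y i) 2 := ⟨_, fun _ => rfl⟩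
  have hθ0 : θ 0 = cf v 2 / 2 := by
    rw [hθ, qq, res_cf, if_pos le_rfl, hprod]
    · rw [inc_cf]
      norm_num
    · intro j hj
      rw [inc_cf]
      exact H.sol.hv j hj
  have hinc : ∀ i, ∀ j < (2 : ℤ), cf (inc (qq P h v y i)) j = 0 := by
    intro i j hj
    rw [inc_cf]
    exact hq i j hj
  have hRH : ∀ i, cf (y i) 2 = 1 / (2 * P.nu) * (θ i + θ (i + 2)) := by
    intro i
    rw [H.sol.eY i, RH, Asub, Asmul, Asmul, hprod' _ (hinc (i + 1)), mul_zero, sub_zero, hprod]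
    · rw [inc_cf, Wadd, hθ, hθ]
    · intro j hj
      rw [inc_cf, Wadd, hq i j hj, hq (i + 2) j hj, add_zero]
  have hn : (0 : ℝ) ≤ P.n := Nat.cast_nonneg _
  have hθs : ∀ i : ℕ, (2 + ((i : ℝ) + 1) / P.n) * θ (i + 1) =
      1 / (2 * P.nu) * (θ i + θ (i + 2)) := by
    intro i
    rw [← hRH, hθ (i + 1), qq, res_cf, if_pos le_rfl]
    push_cast
    have : (0 : ℝ) < 2 + ((i : ℝ) + 1) / P.n := by positivity
    field_simp
  have hnu : 0 < P.nu := lt_of_lt_of_le (by norm_num) H.good.nu1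
  have hc1 : 1 / (4 * P.nu) ≤ 5 / 16 := by
    rw [div_le_div_iff₀ (by positivity) (by norm_num)]
    have := H.good.nu1
    linarith
  have hbound : ∀ i, |θ (i + 1)| ≤ 5 / 8 * 5 * X ^ 2 := by
    intro i
    rw [hθ]
    refine le_trans ?_ (hqn i)
    refine le_trans ?_ (Wbd _ 2)
    exact le_mul_of_one_le_right (abs_nonneg _) (Wt.one_le (w := wW) 2)
  have hr : ∀ i, |θ (i + 1)| ≤ 1 / (4 * P.nu) * (|θ i| + |θ (i + 2)|) := by
    intro i
    have h1 := hθs i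
    have h2 : (0 : ℝ) ≤ ((i : ℝ) + 1) / P.n := by positivity
    have h3 : 2 * |θ (i + 1)| ≤ (2 + ((i : ℝ) + 1) / P.n) * |θ (i + 1)| := by
      have := mul_nonneg h2 (abs_nonneg (θ (i + 1)))
      linarith
    have h4 : (2 + ((i : ℝ) + 1) / P.n) * |θ (i + 1)| = 1 / (2 * P.nu) * |θ i + θ (i + 2)| := by
      rw [← abs_of_pos (show (0 : ℝ) < 2 + ((i : ℝ) + 1) / P.n by positivity), ← abs_mul, h1,
        abs_mul, abs_of_pos (show 0 < 1 / (2 * P.nu) by positivity)]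
    have h5 : 1 / (2 * P.nu) * |θ i + θ (i + 2)| ≤ 1 / (2 * P.nu) * (|θ i| + |θ (i + 2)|) := by
      gcongr
      exact abs_add_le _ _
    have e : 1 / (2 * P.nu) * (|θ i| + |θ (i + 2)|) =
        2 * (1 / (4 * P.nu) * (|θ i| + |θ (i + 2)|)) := by
      field_simp
      ring
    linarith
  constructor
  · rw [← hθ 1]
    refine (rv_seq (by positivity) hc1 hbound hr).trans (le_of_eq ?_)
    rw [hθ0, abs_div, abs_of_pos (show (0 : ℝ) < 2 by norm_num)]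
    field_simp
  · have h1 := hθs 0
    rw [vv, Wsub, Wsmul, Wsmul, Wadd, ← hθ 0, ← hθ (0 + 2), ← hθ (0 + 1), ← h1]
    ring

end Pool.Agent.H957.HE.SC
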